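import Mathlib
import Pool.Agent.Helper288.NT.Lower
import Pool.Agent.Helper151.NS.VBridge

set_option autoImplicit false

namespace Pool.Agent.Results.MP_f608e6_al.RowThree

/-- A numerical semigroup: an additive submonoid of the naturals with finite complement. -/
def IsNumericalSemigroup (G : AddSubmonoid ℕ) : Prop := {n : ℕ | n ∉ G}.Finite

/-- `g` lists the minimal generators of `G` in increasing order. -/
def IsMinimalGenerators {k : ℕ} (G : AddSubmonoid ℕ) (g : Fin k → ℕ) : Prop :=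
  StrictMono g ∧ AddSubmonoid.closure (Set.range g) = G ∧
    ∀ i : Fin k, g i ∉ AddSubmonoid.closure (g '' {j : Fin k | j ≠ i})

/-- The pseudo-Frobenius numbers of `G`: the integers `p` not in `G` such that `p + c` is in `G`
for every nonzero element `c` of `G`. -/
def pseudoFrobenius (G : AddSubmonoid ℕ) : Set ℤ :=
  {p : ℤ | (¬ ∃ n ∈ G, (n : ℤ) = p) ∧ ∀ c ∈ G, c ≠ 0 → ∃ n ∈ G, (n : ℤ) = p + c}

/-- The type of `G`: the number of its pseudo-Frobenius numbers. -/
noncomputable def type (G : AddSubmonoid ℕ) : ℕ∞ := (pseudoFrobenius G).encard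

/-- The supremum of the types of all numerical semigroups of embedding dimension `e + 1` and
multiplicity `m`. -/
noncomputable def maxType (e m : ℕ) : ℕ∞ :=
  sSup {x : ℕ∞ | ∃ (G : AddSubmonoid ℕ) (g : Fin (e + 1) → ℕ), IsNumericalSemigroup G ∧
    IsMinimalGenerators G g ∧ g 0 = m ∧ x = type G}

lemma floor_eq (m : ℕ) : ⌊2 * Real.sqrt (m : ℝ)⌋₊ = Nat.sqrt (4 * m) := by
  have h1 : (2 : ℝ) * Real.sqrt m = Real.sqrt ((4 * m : ℕ) : ℝ) := by
    push_cast
    rw [Real.sqrt_mul (by norm_num)]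
    congr 1
    rw [show (4 : ℝ) = 2 ^ 2 by norm_num, Real.sqrt_sq (by norm_num)]
  rw [h1, Real.nat_floor_real_sqrt_eq_nat_sqrt]

lemma cofinite_of_gcd {k : ℕ} (g : Fin k → ℕ) (h : Finset.univ.gcd g = 1) :
    IsNumericalSemigroup (AddSubmonoid.closure (Set.range g)) := by
  obtain ⟨n, hn⟩ := Nat.exists_mem_closure_of_ge (Set.range g)
  have h1 : Nat.setGcd (Set.range g) = 1 := by
    have : Nat.setGcd (Set.range g) ∣ Finset.univ.gcd g :=
      Finset.dvd_gcd (fun i _ => Nat.setGcd_dvd_of_mem (Set.mem_range_self i))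
    rw [h] at this
    exact Nat.dvd_one.mp this
  refine (Finset.range n).finite_toSet.subset ?_
  intro x hx
  rw [Finset.coe_range, Set.mem_Iio]
  by_contra hc
  exact hx (hn x (not_lt.mp hc) (by rw [h1]; exact one_dvd _))

/-- Every numerical semigroup of embedding dimension `4` and multiplicity `m` has type at most
`⌊2 √m⌋ + 1`. -/
lemma upper (m : ℕ) (hm : 0 < m) (g : Fin 4 → ℕ) (hmono : StrictMono g) (h0 : g 0 = m) :
    type (AddSubmonoid.closure (Set.range g)) ≤ ((Nat.sqrt (4 * m) + 1 : ℕ) : ℕ∞) := by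
  have hpos : ∀ i, 0 < g i := by
    intro i
    have := hmono.monotone (Fin.zero_le i)
    omega
  obtain ⟨B, C, h, hmin⟩ := Pool.Agent.Helper288.NT.tileOf m hm g hpos
  have h1 := Pool.Agent.Helper288.NT.type_le m hm g h0 hpos B C h hmin
  have h2 := Pool.Agent.Helper288.NT.card_Mx h
  have h3 := Pool.Agent.Helper151.NS.VBridge.comb m _ B C hm h
  have h4 : C.card - 2 ≤ Nat.sqrt (4 * m) := Nat.le_sqrt.2 h3
  refine le_trans h1 ?_
  exact_mod_cast (by omega : (Pool.Agent.Helper288.NT.Mx B).card ≤ Nat.sqrt (4 * m) + 1)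

/-- For every `m > 3`, the maximal type `T(3, m)` of a numerical semigroup of embedding dimension
`4` and multiplicity `m` lies between `⌊2 √m⌋ - 1` and `⌊2 √m⌋ + 1`. -/
theorem result : ∀ m : ℕ, 3 < m →
    ((⌊2 * Real.sqrt (m : ℝ)⌋₊ - 1 : ℕ) : ℕ∞) ≤ maxType 3 m ∧
      maxType 3 m ≤ ((⌊2 * Real.sqrt (m : ℝ)⌋₊ + 1 : ℕ) : ℕ∞) := by
  intro m hm
  rw [floor_eq]
  constructor
  · obtain ⟨a, h1, h2, h3, h4, h5⟩ := Pool.Agent.Helper288.NT.exists_large m hm
    refine le_trans h5 (le_sSup ⟨_, a, cofinite_of_gcd a h3, ⟨h1, rfl, h4⟩, h2, rfl⟩)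
  · refine sSup_le ?_
    rintro x ⟨G, g, -, ⟨hmono, rfl, -⟩, h0, rfl⟩
    exact upper m (by omega) g hmono h0

end Pool.Agent.Results.MP_f608e6_al.RowThree
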